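import Mathlib
import Pool.Agent.H85.WB3

namespace Pool.Agent.Results.MP_365e45_an.Spike

open Filter Topology MeasureTheory Finset

/-- `e(x)` -/
noncomputable def e (x : ℝ) : ℂ := Complex.exp (2 * Real.pi * Complex.I * x)

/-- the cubes `(x, h)` all of whose vertices lie in `[N] = {1,...,N}` -/
noncomputable def cubes (s N : ℕ) : Finset (ℤ × (Fin s → ℤ)) :=
  (Icc (1 : ℤ) N ×ˢ Fintype.piFinset fun _ => Icc (-N : ℤ) N).filter
    fun p => ∀ ω : Finset (Fin s), p.1 + ∑ i ∈ ω, p.2 i ∈ Icc (1 : ℤ) N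

/-- the Gowers norm `U^s([N])` -/
noncomputable def U (s N : ℕ) (F : ℤ → ℂ) : ℝ :=
  (‖∑ p ∈ cubes s N, ∏ ω : Finset (Fin s),
    (starRingEnd ℂ)^[ω.card] (F (p.1 + ∑ i ∈ ω, p.2 i))‖ / (cubes s N).card) ^ (1 / 2 ^ s : ℝ)

/-- the sum of `S(a/q) e(na/q)` over `a` mod `q` coprime to `q` -/
noncomputable def arc (S : ℚ → ℂ) (n : ℤ) (q : ℕ) : ℂ :=
  ∑ a ∈ (Icc 1 q).filter (fun a => a.Coprime q), S (a / q) * e (n * a / q)

/-- `w_Q(n)` -/
noncomputable def wQ (S : ℚ → ℂ) (n : ℤ) (Q : ℕ) : ℂ :=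
  ∑ q ∈ (Icc 1 Q).filter (fun q => Q < 2 * q), arc S n q

/-- `w` is admissible and satisfies the Fourier approximation condition -/
def Good (w : ℤ → ℂ) : Prop :=
  (∃ (C : ℝ) (L₀ : ℕ), ∀ (a : ℤ) (L : ℕ), L₀ ≤ L → |2 * a + L - 1| ≤ 10 * L →
    (∑ n ∈ Ico a (a + L), ‖w n‖) / L ≤ C) ∧
  ∃ (C ν c : ℝ) (s : ℕ) (S : ℚ → ℂ) (M : ℕ → ℕ) (η θ : ℕ → ℝ), 4 < ν ∧ 3 ≤ s ∧ 0 < c ∧
    Tendsto η atTop (𝓝 0) ∧ Tendsto θ atTop (𝓝 0) ∧
    (∀ r : ℚ, ‖S r‖ ≤ C * (r.den : ℝ) ^ (η r.den - 1)) ∧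
    ∀ᶠ N : ℕ in atTop, (M N : ℝ) ≤ (N : ℝ) ^ θ N ∧
      U s N (fun n => w n - ∑ q ∈ Icc 1 (M N), arc S n q) ≤ C * Real.log N ^ (-ν / 2 ^ s) ∧
      ∀ β : ℝ, ‖(∑ n ∈ Icc (1 : ℤ) N, (w n - ∑ j ∈ (range (M N)).filter (fun j => 2 ^ j ≤ M N),
        wQ S n (2 ^ j)) * e (-(n * β))) / N‖ ≤ C * (N : ℝ) ^ (-c)

/-- `B_{w,N}(f,g)(x)` -/
noncomputable def B {X : Type} [MeasurableSpace X] (T : X ≃ᵐ X) (w : ℤ → ℂ) (f g : X → ℂ)
    (x : X) (N : ℕ) : ℂ :=
  (∑ n ∈ Icc 1 N, w n * f (T^[n] x) * g (T.symm^[n] x)) / N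

open Pool.Agent.H85.WB

/-- the coefficient function used in the proof -/
noncomputable def S0 (r : ℚ) : ℂ := if r.den = 1 then 1 else 0

lemma arc_one (n : ℤ) : arc S0 n 1 = 1 := by
  have : e n = 1 := by
    rw [e, mul_comm]
    exact_mod_cast Complex.exp_int_mul_two_pi_mul_I n
  simp [arc, S0, this]

lemma norm_e (x : ℝ) : ‖e x‖ = 1 := by
  rw [e, show 2 * Real.pi * Complex.I * x = ((2 * Real.pi * x : ℝ) : ℂ) * Complex.I by
    push_cast; ring, Complex.norm_exp_ofReal_mul_I]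

lemma norm_it (k : ℕ) (z : ℂ) : ‖(starRingEnd ℂ)^[k] z‖ = ‖z‖ := by
  induction k with
  | zero => rfl
  | succ k ih => rw [Function.iterate_succ_apply', Complex.norm_conj, ih]

lemma norm_sp (n : ℤ) : ‖(sp n : ℂ)‖ = sp n := by
  rw [Complex.norm_real, Real.norm_of_nonneg (sp_nonneg n)]

lemma card_cubes {N : ℕ} (h : 4 ≤ N) : ((N : ℝ) / 8) ^ 4 ≤ (cubes 3 N).card := by
  have c : (Icc (1 : ℤ) (N / 4 : ℕ) ×ˢ Fintype.piFinset fun _ : Fin 3 =>
      Icc (1 : ℤ) (N / 4 : ℕ)) ⊆ cubes 3 N := by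
    intro p hp
    simp only [cubes, mem_filter, mem_product, Fintype.mem_piFinset, mem_Icc] at hp ⊢
    refine ⟨⟨by omega, fun i => by have := hp.2 i; omega⟩, fun ω => ?_⟩
    have a : 0 ≤ ∑ i ∈ ω, p.2 i := sum_nonneg fun i _ => by have := hp.2 i; omega
    have b := (sum_le_sum_of_subset_of_nonneg (subset_univ ω) (f := p.2)
      fun i _ _ => by have := hp.2 i; omega)
    rw [Fin.sum_univ_three] at b
    have := hp.2 0
    have := hp.2 1
    have := hp.2 2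
    omega
  have d := card_le_card c
  simp only [card_product, Fintype.card_piFinset, Int.card_Icc, prod_const, card_univ,
    Fintype.card_fin, add_sub_cancel_right, Int.toNat_natCast, ← pow_succ'] at d
  refine le_trans ?_ (Nat.cast_le.2 d)
  push_cast
  gcongr
  rw [div_le_iff₀ (by norm_num)]
  exact_mod_cast (by omega : N ≤ N / 4 * 8)

lemma U_le {N : ℕ} (h : 4 ≤ N) (h1 : 0 < Real.log N) (h2 : Real.log N ^ 5 ≤ y N) :
    U 3 N (fun n => sp n) ≤ 4 * Real.log N ^ (-5 / 2 ^ 3 : ℝ) := by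
  have y0 : 0 < y N := lt_of_lt_of_le (by positivity) h2
  have a : ‖∑ p ∈ cubes 3 N, ∏ ω : Finset (Fin 3),
      (starRingEnd ℂ)^[ω.card] (sp (p.1 + ∑ i ∈ ω, p.2 i) : ℂ)‖ ≤ 8 * y N ^ 39 := by
    refine (norm_sum_le _ _).trans ?_
    simp only [norm_prod, norm_it, norm_sp]
    exact sum_cube (by omega) _ fun p hp ω => (mem_Icc.1 ((mem_filter.1 hp).2 ω)).2
  have b := card_cubes h
  rw [← y_ten N] at b
  have c : (4 * Real.log N ^ (-5 / 2 ^ 3 : ℝ)) ^ 8 = 4 ^ 8 / Real.log N ^ 5 := by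
    rw [mul_pow, ← Real.rpow_natCast (_ ^ _), ← Real.rpow_mul h1.le, div_eq_mul_inv _ (_ ^ 5),
      ← Real.rpow_natCast _ 5, ← Real.rpow_neg h1.le]
    norm_num
  rw [U, ← Real.pow_rpow_inv_natCast (x := 4 * Real.log N ^ (-5 / 2 ^ 3 : ℝ)) (n := 8)
    (by positivity) (by norm_num), c, show (1 / 2 ^ 3 : ℝ) = ((8 : ℕ) : ℝ)⁻¹ by norm_num]
  refine Real.rpow_le_rpow (by positivity) ?_ (by positivity)
  calc _ ≤ 8 * y N ^ 39 / (y N ^ 10 / 8) ^ 4 := by gcongr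
    _ = 32768 / y N := by field_simp; norm_num
    _ ≤ _ := by gcongr; norm_num

lemma good : Good fun n => 1 + sp n := by
  refine ⟨⟨13, 1, fun a L h1 h2 => ?_⟩, 4, 5, 1 / 5, 3, S0, fun _ => 1, fun _ => 0, fun _ => 0,
    by norm_num, le_rfl, by norm_num, tendsto_const_nhds, tendsto_const_nhds, fun r => ?_, ?_⟩
  · have k := sum_sp (N := 6 * L) (by omega) (Ico a (a + L)) fun n hn => by
      have := abs_le.1 h2
      have := mem_Ico.1 hn
      omega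
    have L1 : (1 : ℝ) ≤ L := by exact_mod_cast h1
    have k2 : y (6 * L) ^ 8 ≤ y (6 * L) ^ 10 := pow_le_pow_right₀
      (Real.one_le_rpow (by push_cast; linarith) (by norm_num)) (by norm_num)
    rw [y_ten] at k2
    rw [div_le_iff₀ (by linarith)]
    refine (sum_le_sum fun n _ => norm_add_le _ _).trans ?_
    simp only [norm_sp, sum_add_distrib, norm_one, sum_const, Int.card_Ico, add_sub_cancel_left,
      Int.toNat_natCast, nsmul_eq_mul]
    push_cast at k2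
    linarith
  · unfold S0
    split_ifs with h
    · simp [h]
    · simp only [norm_zero]
      positivity
  filter_upwards [log_le, eventually_ge_atTop 4] with N ⟨h1, h2⟩ h
  refine ⟨by simp, by simpa [arc_one] using U_le h h1 h2, fun β => ?_⟩
  have N0 : (0 : ℝ) < N := by positivity
  have k : ∀ n, ∑ j ∈ (range 1).filter (fun j => 2 ^ j ≤ 1), wQ S0 n (2 ^ j) = 1 := fun n => by
    simp [wQ, arc_one, filter_singleton]
  simp only [k, add_sub_cancel_left, norm_div, Complex.norm_natCast]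
  rw [div_le_iff₀ N0]
  refine (norm_sum_le _ _).trans ?_
  simp only [norm_mul, norm_e, norm_sp, mul_one]
  refine (sum_sp (N := N) (by omega) _ fun n hn => (mem_Icc.1 hn).2).trans ?_
  rw [mul_assoc, ← Real.rpow_add_one N0.ne', y_pow]
  norm_num
  gcongr
  norm_num

theorem result : ∃ w : ℤ → ℂ, Good w ∧ ∃ (X : Type) (_ : MeasurableSpace X) (μ : Measure X)
    (_ : IsProbabilityMeasure μ) (T : X ≃ᵐ X), MeasurePreserving T μ μ ∧
    ∃ p q : ℝ, 1 < p ∧ 1 < q ∧ 1 ≤ 1 / p + 1 / q ∧ ∃ f g : X → ℂ,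
      MemLp f (ENNReal.ofReal p) μ ∧ MemLp g (ENNReal.ofReal q) μ ∧
      ∀ᵐ x ∂μ, ¬ ∃ L, Tendsto (B T w f g x) atTop (𝓝 L) := by
  obtain ⟨t, t1, t2, t3⟩ := ex_t
  have t0 : 0 < t := by linarith
  have a1 : (1.999 : NNReal) * ({2, 3} : Finset ℤ).card < 4 := by norm_num
  have a2 : (1.333 : NNReal) * ({1, 2, 3} : Finset ℤ).card < 4 := by norm_num
  refine ⟨_, good, X, _, mu, inferInstance, T, pres 1, 1 / t, 1 / t, one_lt_one_div t0 t2,
    one_lt_one_div t0 t2, by rw [one_div_one_div]; linarith, _, _, f_mem _ _ a1 t t0,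
    f_mem _ _ a2 t t0, ?_⟩
  filter_upwards [ae_fin _ _ a1 fun n => n, ae_fin _ _ a2 fun n => -(n : X)] with x h1 h2 ⟨L, hL⟩
  obtain ⟨C, hC⟩ := hL.norm.bddAbove_range
  obtain ⟨d, hd⟩ := ((tendsto_pow_atTop_atTop_of_one_lt (r := (2.64 / 2.6391 : ℝ))
    (by norm_num)).eventually (eventually_gt_atTop (C * 2.6391))).exists
  obtain ⟨n, n1, n0, n2, n3⟩ := cover' x d
  have b := hC ⟨n, rfl⟩
  have N0 : (0 : ℝ) < n := by positivity
  have e1 : B T (fun n => 1 + sp n) (fun x => (f {2, 3} 1.999 t x : ℂ))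
      (fun x => (f {1, 2, 3} 1.333 t x : ℂ)) x n = (((∑ m ∈ Icc 1 n, (1 + sp m) *
        f {2, 3} 1.999 t (x + m) * f {1, 2, 3} 1.333 t (x + -(m : X))) / n : ℝ) : ℂ) := by
    simp [B, T_it, S_it]
  simp only [e1, Complex.norm_real] at b
  have b2 := (le_abs_self _).trans b
  rw [div_le_iff₀ N0] at b2
  have b3 := (single_le_sum (f := fun m : ℕ => (1 + sp m) * f {2, 3} 1.999 t (x + m) *
    f {1, 2, 3} 1.333 t (x + -(m : X))) (fun m _ => mul_nonneg (mul_nonneg (by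
      have := sp_nonneg m; positivity) (f_nonneg _ _ _ _)) (f_nonneg _ _ _ _))
    (mem_Icc.2 ⟨n0, le_rfl⟩)).trans b2
  have c1 := f_ge _ _ t t0 _ (h1 n) d n2
  have c2 := f_ge _ _ t t0 _ (h2 n) d n3
  have c3 := sp_ge n1 n0
  have s0 := sp_nonneg n
  have c4 : sp n * 2.64 ^ d ≤ C * n := by
    refine le_trans ?_ b3
    rw [mul_assoc]
    refine mul_le_mul (by linarith) ?_ (by positivity) (by positivity)
    refine (pow_le_pow_left₀ (by norm_num) t3.le d).trans ?_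
    rw [mul_pow]
    exact mul_le_mul (by exact_mod_cast c1) (by exact_mod_cast c2) (by positivity)
      (f_nonneg _ _ _ _)
  rw [div_pow, lt_div_iff₀ (by positivity)] at hd
  have C0 : 0 ≤ C := (norm_nonneg _).trans b
  have s1 : 0 < sp n := by
    by_contra k
    rw [le_antisymm (not_lt.1 k) s0] at c3
    linarith
  rw [pow_succ] at c3
  nlinarith [mul_le_mul_of_nonneg_left c3 C0, mul_lt_mul_of_pos_left hd s1]

end Pool.Agent.Results.MP_365e45_an.Spike
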